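import Pool.Agent.H47.CL.Glue

set_option autoImplicit false
set_option linter.unusedSectionVars false

/-!
# Closure of bounded tree-depth under sums of order at most three
-/

namespace Pool.Agent.H47.CL

open Finset Pool.Agent.H47.FC

/-- injective vertex maps -/
theorem good_of_inj {V W' E : Type} [DecidableEq V] [Fintype V] [DecidableEq W'] [Fintype W']
    [DecidableEq E] [Fintype E] (a b : E → V) (g : V → W') (hg : Function.Injective g) (k : ℕ)
    (h : Good k (fun e => g (a e)) (fun e => g (b e))) : Good k a b := by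
  classical
  intro w hw
  obtain ⟨J, hJ, D, hD1, hD2⟩ := h w (by
    intro X e he
    let Y : Finset V := univ.filter (fun v => g v ∈ X)
    have hY : ∀ f, Crs (fun e => g (a e)) (fun e => g (b e)) X f ↔ Crs a b Y f := by
      intro f
      unfold Crs
      simp [Y]
    have h1 := hw Y e ((hY e).1 he)
    have h2 : univ.filter (fun f => Crs (fun e => g (a e)) (fun e => g (b e)) X f)
        = univ.filter (fun f => Crs a b Y f) := by
      ext f
      rw [mem_filter, mem_filter, hY]
    rw [h2]
    exact h1)
  refine ⟨J, hJ, D, ?_, hD2⟩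
  intro j
  apply evenM_of_cuts
  intro X
  have h1 := NC.even_crs _ _ (hD1 j) (X.image g)
  have hX : ∀ v, g v ∈ X.image g ↔ v ∈ X := by
    intro v
    rw [mem_image]
    constructor
    · rintro ⟨u, hu, huv⟩
      rw [← hg huv]; exact hu
    · intro h; exact ⟨v, h, rfl⟩
  have h2 : (D j).filter (fun e => Crs (fun e => g (a e)) (fun e => g (b e)) (X.image g) e)
      = (D j).filter (fun e => Crs a b X e) := by
    ext f
    rw [mem_filter, mem_filter]
    unfold Crs
    rw [hX, hX]
  rw [h2] at h1
  exact h1

/-- tree-depth at most `h` -/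
def TreeDepthLE {V : Type} (G : SimpleGraph V) (h : ℕ) : Prop :=
  ∃ (par : V → V) (dep : V → ℕ), (∀ v, dep v < h) ∧ (∀ v, dep v ≠ 0 → dep (par v) + 1 = dep v) ∧
    ∀ u v, G.Adj u v → (dep u < dep v ∧ par^[dep v - dep u] v = u) ∨
      (dep v < dep u ∧ par^[dep u - dep v] u = v)

/-- one part of a separation, with a clique on the separator -/
def part {V : Type} (G : SimpleGraph V) (A B : Set V) : SimpleGraph V where
  Adj u v := u ≠ v ∧ u ∈ A ∧ v ∈ A ∧ (G.Adj u v ∨ (u ∈ B ∧ v ∈ B))
  symm := ⟨fun _ _ h => ⟨h.1.symm, h.2.2.1, h.2.1, h.2.2.2.imp (fun h => h.symm) (fun h => ⟨h.2, h.1⟩)⟩⟩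
  loopless := ⟨fun _ h => h.1 rfl⟩

/-- compatible ends of an edge -/
def Ok {V I : Type} (G : SimpleGraph V) (S : I → Set V) : V ⊕ I → V ⊕ I → Prop
  | Sum.inl u, Sum.inl v => u = v ∨ G.Adj u v
  | Sum.inl u, Sum.inr i => u ∈ S i
  | Sum.inr i, Sum.inl u => u ∈ S i
  | Sum.inr i, Sum.inr j => i = j

/-- all multigraphs on `G` with some additional vertices attached to cliques with at most three
vertices are good -/
def Ext {V : Type} [DecidableEq V] [Fintype V] (k : ℕ) (G : SimpleGraph V) : Prop :=
  ∀ (I E : Type) [DecidableEq I] [Fintype I] [DecidableEq E] [Fintype E] (S : I → Set V)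
    (a b : E → V ⊕ I),
    (∀ i, (S i).encard ≤ 3 ∧ ∀ u ∈ S i, ∀ v ∈ S i, u ≠ v → G.Adj u v) →
    (∀ e, Ok G S (a e) (b e)) → Good k a b

/-- bounded tree-depth -/
theorem ext_base (h : ℕ) : ∃ k : ℕ, 0 < k ∧ ∀ (V : Type) [DecidableEq V] [Fintype V]
    (G : SimpleGraph V), TreeDepthLE G h → Ext k G := by
  classical
  obtain ⟨k, hk, H⟩ := good_of_elim (h + 1)
  refine ⟨k, hk, ?_⟩
  intro V _ _ G ⟨par, dep, h1, h2, h3⟩ I E _ _ _ _ S a b hS hok
  apply H
  rcases isEmpty_or_nonempty V with hV | hV
  · have hlp : ∀ e, a e = b e := by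
      intro e
      have hoke := hok e
      rcases hae : a e with u | i
      · exact hV.elim u
      · rcases hbe : b e with v | j
        · exact hV.elim v
        · rw [hae, hbe] at hoke
          exact congrArg Sum.inr hoke
    exact ⟨⟨id, fun _ => 0, fun _ => Nat.succ_pos h, fun _ h => absurd rfl h,
      fun e he => absurd (hlp e) he⟩⟩
  -- deepest vertices
  have hd : ∀ i, (S i).Nonempty → ∃ d ∈ S i, ∀ u ∈ S i, dep u ≤ dep d := by
    intro i hi
    exact Set.exists_max_image (S i) dep (Set.toFinite _) hi
  choose! d hd1 hd2 using hd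
  let dep' : V ⊕ I → ℕ := Sum.elim dep (fun i => if (S i).Nonempty then dep (d i) + 1 else 0)
  let par' : V ⊕ I → V ⊕ I := Sum.elim (fun v => Sum.inl (par v))
    (fun i => if (S i).Nonempty then Sum.inl (d i) else Sum.inr i)
  have hdep : ∀ i, (S i).Nonempty → dep' (Sum.inr i) = dep (d i) + 1 := fun i hi => if_pos hi
  have hpar : ∀ i, (S i).Nonempty → par' (Sum.inr i) = Sum.inl (d i) := fun i hi => if_pos hi
  have hit : ∀ n v, par'^[n] (Sum.inl v) = Sum.inl (par^[n] v) := by
    intro n
    induction n with
    | zero => intro v; rfl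
    | succ n ih =>
      intro v
      rw [Function.iterate_succ_apply, Function.iterate_succ_apply]
      exact ih (par v)
  have hclaw : ∀ u i, u ∈ S i → dep' (Sum.inl u) < dep' (Sum.inr i) ∧
      par'^[dep' (Sum.inr i) - dep' (Sum.inl u)] (Sum.inr i) = Sum.inl u := by
    intro u i hu
    have hne : (S i).Nonempty := ⟨u, hu⟩
    have h4 := hd2 i hne u hu
    have h5 : dep' (Sum.inl u) = dep u := rfl
    rw [hdep i hne, h5]
    refine ⟨by omega, ?_⟩
    have h6 : dep (d i) + 1 - dep u = (dep (d i) - dep u) + 1 := by omega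
    rw [h6, Function.iterate_succ_apply, hpar i hne, hit]
    by_cases hud : u = d i
    · rw [← hud, Nat.sub_self]
      rfl
    · rcases h3 u (d i) ((hS i).2 u hu (d i) (hd1 i hne) hud) with h7 | h7
      · rw [h7.2]
      · omega
  refine ⟨{ par := par', dep := dep', dep_lt := ?_, dep_par := ?_, comp := ?_ }⟩
  · rintro (v | i)
    · have : dep' (Sum.inl v) = dep v := rfl
      rw [this]
      have := h1 v
      omega
    · by_cases hne : (S i).Nonempty
      · rw [hdep i hne]
        have := h1 (d i)
        omega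
      · have : dep' (Sum.inr i) = 0 := if_neg hne
        rw [this]
        omega
  · rintro (v | i) hv
    · exact h2 v hv
    · by_cases hne : (S i).Nonempty
      · rw [hdep i hne, hpar i hne]
        rfl
      · exact absurd (if_neg hne) hv
  · intro e he
    have hoke := hok e
    rcases hae : a e with u | i <;> rcases hbe : b e with v | j
    · rw [hae, hbe] at hoke he
      have hadj : G.Adj u v := by
        rcases hoke with h4 | h4
        · exact absurd (congrArg Sum.inl h4) he
        · exact h4
      rcases h3 u v hadj with h4 | h4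
      · left
        refine ⟨h4.1, ?_⟩
        rw [hit]
        exact congrArg Sum.inl h4.2
      · right
        refine ⟨h4.1, ?_⟩
        rw [hit]
        exact congrArg Sum.inl h4.2
    · rw [hae, hbe] at hoke
      exact Or.inl (hclaw u j hoke)
    · rw [hae, hbe] at hoke
      exact Or.inr (hclaw v i hoke)
    · rw [hae, hbe] at hoke he
      exact absurd (congrArg Sum.inr hoke) he

/-- sums of order at most three -/
theorem ext_sum {V : Type} [DecidableEq V] [Fintype V] (k : ℕ) (G : SimpleGraph V) (A B : Set V)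
    (hAB : A ∪ B = Set.univ) (h3 : (A ∩ B).encard ≤ 3)
    (hsep : ∀ u v, G.Adj u v → (u ∈ A ∧ v ∈ A) ∨ (u ∈ B ∧ v ∈ B))
    (hA : Ext k (part G A B)) (hB : Ext k (part G B A)) : Ext k G := by
  classical
  intro I E _ _ _ _ S a b hS hok
  have hcov : ∀ v, v ∉ A → v ∈ B := by
    intro v hv
    have : v ∈ A ∪ B := by rw [hAB]; trivial
    exact this.resolve_left hv
  have hcl : ∀ i, ¬ S i ⊆ A → S i ⊆ B := by
    intro i hi v hv
    by_contra hvB
    rw [Set.not_subset] at hi
    obtain ⟨u, hu, huA⟩ := hi
    have huB := hcov u huA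
    have huv : u ≠ v := by
      rintro rfl
      exact hvB huB
    rcases hsep u v ((hS i).2 u hu v hv huv) with h | h
    · exact huA h.1
    · exact hvB h.2
  let pv : V ⊕ I → Prop := Sum.elim (fun v => v ∈ A) (fun i => S i ⊆ A)
  let qv : V ⊕ I → Prop := Sum.elim (fun v => v ∈ B) (fun i => ¬ S i ⊆ A)
  let p : E → Prop := fun e => pv (a e) ∧ pv (b e)
  have hq : ∀ e, ¬ p e → qv (a e) ∧ qv (b e) := by
    intro e he
    have hoke := hok e
    have he' : ¬ (pv (a e) ∧ pv (b e)) := he
    rcases hae : a e with u | i <;> rcases hbe : b e with v | j <;> rw [hae, hbe] at hoke he'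
    · rcases hoke with h4 | h4
      · subst h4
        have : u ∉ A := fun h => he' ⟨h, h⟩
        exact ⟨hcov u this, hcov u this⟩
      · rcases hsep u v h4 with h5 | h5
        · exact absurd h5 he'
        · exact h5
    · have h4 : ¬ S j ⊆ A := fun h => he' ⟨h hoke, h⟩
      exact ⟨hcl j h4 hoke, h4⟩
    · have h4 : ¬ S i ⊆ A := fun h => he' ⟨h, h hoke⟩
      exact ⟨h4, hcl i h4 hoke⟩
    · have h4 : i = j := hoke
      subst h4
      have h5 : ¬ S i ⊆ A := fun h => he' ⟨h, h⟩
      exact ⟨h5, h5⟩
  let Z : Finset (V ⊕ I) := (univ.filter (fun v => v ∈ A ∩ B)).image Sum.inl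
  have hZ : ∀ v, v ∈ Z ↔ ∃ u ∈ A ∩ B, v = Sum.inl u := by
    intro v
    rw [mem_image]
    constructor
    · rintro ⟨u, hu, rfl⟩; exact ⟨u, (mem_filter.1 hu).2, rfl⟩
    · rintro ⟨u, hu, rfl⟩; exact ⟨u, mem_filter.2 ⟨mem_univ _, hu⟩, rfl⟩
  have hZc : Z.card ≤ 3 := by
    refine card_image_le.trans ?_
    have h4 : (A ∩ B).encard = ((univ.filter (fun v => v ∈ A ∩ B)).card : ℕ∞) := by
      rw [← Set.encard_coe_eq_coe_finsetCard]
      congr 1
      ext v
      simp
    rw [h4] at h3
    exact_mod_cast h3
  let g : V ⊕ I → V ⊕ Option I := Sum.map id some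
  have hg : Function.Injective g :=
    Function.Injective.sumMap Function.injective_id (Option.some_injective _)
  have hx : ∀ v, g v ≠ Sum.inr none := by
    rintro (v | i) h
    · exact absurd h (by simp [g])
    · exact absurd h (by simp [g])
  let SA : Option I → Set V := fun i => match i with
    | none => A ∩ B
    | some i => if S i ⊆ A then S i else ∅
  let SB : Option I → Set V := fun i => match i with
    | none => A ∩ B
    | some i => if S i ⊆ A then ∅ else S i
  have hSA1 : ∀ i, S i ⊆ A → SA (some i) = S i := fun i hi => if_pos hi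
  have hSA2 : ∀ i, ¬ S i ⊆ A → SA (some i) = ∅ := fun i hi => if_neg hi
  have hSB1 : ∀ i, S i ⊆ A → SB (some i) = ∅ := fun i hi => if_pos hi
  have hSB2 : ∀ i, ¬ S i ⊆ A → SB (some i) = S i := fun i hi => if_neg hi
  apply good_glue a b k p Z hZc ?_ g hg (Sum.inr none) hx
  · -- the first side
    apply hA (Option I) (E ⊕ Z) SA
    · rintro (_ | i)
      · refine ⟨h3, ?_⟩
        intro u hu v hv huv
        exact ⟨huv, hu.1, hv.1, Or.inr ⟨hu.2, hv.2⟩⟩
      · by_cases hi : S i ⊆ A
        · rw [hSA1 i hi]
          refine ⟨(hS i).1, ?_⟩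
          intro u hu v hv huv
          exact ⟨huv, hi hu, hi hv, Or.inl ((hS i).2 u hu v hv huv)⟩
        · rw [hSA2 i hi]
          refine ⟨by simp, ?_⟩
          intro u hu
          exact absurd hu (Set.notMem_empty _)
    · rintro (e | z)
      · simp only [Sum.elim_inl]
        by_cases he : p e
        · rw [if_pos he, if_pos he]
          have hoke := hok e
          have he' : pv (a e) ∧ pv (b e) := he
          rcases hae : a e with u | i <;> rcases hbe : b e with v | j <;> rw [hae, hbe] at hoke he'
          · rcases hoke with h4 | h4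
            · exact Or.inl h4
            · exact Or.inr ⟨h4.ne, he'.1, he'.2, Or.inl h4⟩
          · show u ∈ SA (some j)
            rw [hSA1 j he'.2]; exact hoke
          · show v ∈ SA (some i)
            rw [hSA1 i he'.1]; exact hoke
          · show some i = some j
            rw [show i = j from hoke]
        · rw [if_neg he, if_neg he]
          rfl
      · simp only [Sum.elim_inr]
        obtain ⟨u, hu, hz⟩ := (hZ z.1).1 z.2
        rw [hz]
        exact hu
  · -- the second side
    apply hB (Option I) (E ⊕ Z) SB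
    · rintro (_ | i)
      · refine ⟨h3, ?_⟩
        intro u hu v hv huv
        exact ⟨huv, hu.2, hv.2, Or.inr ⟨hu.1, hv.1⟩⟩
      · by_cases hi : S i ⊆ A
        · rw [hSB1 i hi]
          refine ⟨by simp, ?_⟩
          intro u hu
          exact absurd hu (Set.notMem_empty _)
        · rw [hSB2 i hi]
          refine ⟨(hS i).1, ?_⟩
          intro u hu v hv huv
          exact ⟨huv, hcl i hi hu, hcl i hi hv, Or.inl ((hS i).2 u hu v hv huv)⟩
    · rintro (e | z)
      · simp only [Sum.elim_inl]
        by_cases he : p e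
        · rw [if_pos he, if_pos he]
          rfl
        · rw [if_neg he, if_neg he]
          have hoke := hok e
          have he' := hq e he
          rcases hae : a e with u | i <;> rcases hbe : b e with v | j <;> rw [hae, hbe] at hoke he'
          · rcases hoke with h4 | h4
            · exact Or.inl h4
            · exact Or.inr ⟨h4.ne, he'.1, he'.2, Or.inl h4⟩
          · show u ∈ SB (some j)
            rw [hSB2 j he'.2]; exact hoke
          · show v ∈ SB (some i)
            rw [hSB2 i he'.1]; exact hoke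
          · show some i = some j
            rw [show i = j from hoke]
      · simp only [Sum.elim_inr]
        obtain ⟨u, hu, hz⟩ := (hZ z.1).1 z.2
        rw [hz]
        exact hu
  · intro e f he hf v hve hvf
    have h4 : pv v := by
      rcases hve with h | h
      · rw [h]; exact he.1
      · rw [h]; exact he.2
    have h5 : qv v := by
      rcases hvf with h | h
      · rw [h]; exact (hq f hf).1
      · rw [h]; exact (hq f hf).2
    rcases v with v | i
    · exact (hZ _).2 ⟨v, ⟨h4, h5⟩, rfl⟩
    · exact absurd h4 h5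

/-- graphs obtained from graphs of tree-depth at most `h` by sums of order at most three -/
inductive Built (h : ℕ) {V : Type} : SimpleGraph V → Prop
  | base (G : SimpleGraph V) : TreeDepthLE G h → Built h G
  | sum (G : SimpleGraph V) (A B : Set V) : A ∪ B = Set.univ → (A ∩ B).encard ≤ 3 →
      (∀ u v, G.Adj u v → (u ∈ A ∧ v ∈ A) ∨ (u ∈ B ∧ v ∈ B)) →
      Built h (part G A B) → Built h (part G B A) → Built h G

/-- **Universal multipliers for sums of graphs of bounded tree-depth.** -/
theorem good_of_built (h : ℕ) : ∃ k : ℕ, 0 < k ∧ ∀ (V : Type) [DecidableEq V] [Fintype V]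
    (G : SimpleGraph V), Built h G → ∀ (E : Type) [DecidableEq E] [Fintype E] (a b : E → V),
      (∀ e, a e = b e ∨ G.Adj (a e) (b e)) → Good k a b := by
  obtain ⟨k, hk, H⟩ := ext_base h
  refine ⟨k, hk, ?_⟩
  intro V _ _ G hG
  have hext : Ext k G := by
    induction hG with
    | base G hG => exact H V G hG
    | sum G A B h1 h2 h3 _ _ ih1 ih2 => exact ext_sum k G A B h1 h2 h3 ih1 ih2
  intro E _ _ a b hab
  apply good_of_inj a b (Sum.inl : V → V ⊕ Empty) Sum.inl_injective k
  exact hext Empty E (fun i => i.elim) (fun e => Sum.inl (a e)) (fun e => Sum.inl (b e))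
    (fun i => i.elim) (fun e => hab e)

end Pool.Agent.H47.CL
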