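import Pool.Agent.H47.FC.Multi
import Pool.Agent.H47.NC.Pack

set_option autoImplicit false
set_option linter.unusedSectionVars false

/-!
# Families of cuts: contraction and sums along cuts with at most three edges
-/

namespace Pool.Agent.H47.CL

open Finset

section

variable {E : Type} [DecidableEq E] [Fintype E]

/-- admissible with respect to a family of cuts -/
def AdmC (C : Set (Finset E)) (w : E → ℕ) : Prop := ∀ T ∈ C, ∀ e ∈ T, 2 * w e ≤ ∑ f ∈ T, w f

/-- `k` times any admissible weight is a sum of sets that meet all cuts evenly -/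
def GoodC (k : ℕ) (C : Set (Finset E)) : Prop :=
  ∀ w : E → ℕ, AdmC C w → ∃ (J : Type) (_ : Fintype J) (D : J → Finset E),
    (∀ j, ∀ T ∈ C, Even (D j ∩ T).card) ∧ ∀ e, (univ.filter (fun j => e ∈ D j)).card = k * w e

lemma sum_symmDiff_le (w : E → ℕ) (A B : Finset E) :
    ∑ f ∈ symmDiff A B, w f ≤ ∑ f ∈ A, w f + ∑ f ∈ B, w f := by
  have h1 : symmDiff A B ⊆ A ∪ B := by
    intro x hx
    rw [mem_symmDiff] at hx
    rw [mem_union]
    tauto
  refine (sum_le_sum_of_subset h1).trans ?_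
  have h2 := sum_union_inter (s₁ := A) (s₂ := B) (f := w)
  omega

/-- **Contraction of one element.** -/
theorem good_contract (k : ℕ) (C : Set (Finset E)) (hC : ∀ A ∈ C, ∀ B ∈ C, symmDiff A B ∈ C) (e0 : E)
    (h : GoodC k C) : GoodC k {T | T ∈ C ∧ e0 ∉ T} := by
  classical
  intro w hw
  -- the weight of `e0`
  obtain ⟨p0, hp1, hp2⟩ : ∃ p0 : ℕ, (∀ T ∈ C, e0 ∈ T → p0 ≤ ∑ f ∈ T.erase e0, w f) ∧
      ((∃ T ∈ C, e0 ∈ T) → ∃ T ∈ C, e0 ∈ T ∧ p0 = ∑ f ∈ T.erase e0, w f) := by
    by_cases hex : ∃ T ∈ C, e0 ∈ T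
    · obtain ⟨T, hT, he⟩ := hex
      obtain ⟨T', hT', hmin⟩ := exists_min_image
        ((univ : Finset (Finset E)).filter (fun T => T ∈ C ∧ e0 ∈ T))
        (fun T => ∑ f ∈ T.erase e0, w f) ⟨T, mem_filter.2 ⟨mem_univ _, hT, he⟩⟩
      have h1 := (mem_filter.1 hT').2
      exact ⟨_, fun T hT he => hmin T (mem_filter.2 ⟨mem_univ _, hT, he⟩),
        fun _ => ⟨T', h1.1, h1.2, rfl⟩⟩
    · exact ⟨0, fun T hT he => absurd ⟨T, hT, he⟩ hex, fun h => absurd h hex⟩
  let w' : E → ℕ := Function.update w e0 p0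
  have hw0 : w' e0 = p0 := Function.update_self _ _ _
  have hwne : ∀ e, e ≠ e0 → w' e = w e := fun e he => Function.update_of_ne he _ _
  have hsum : ∀ T : Finset E, e0 ∉ T → ∑ f ∈ T, w' f = ∑ f ∈ T, w f := by
    intro T hT
    refine sum_congr rfl fun f hf => hwne f ?_
    rintro rfl
    exact hT hf
  have hadm : AdmC C w' := by
    intro T hT e he
    by_cases h0 : e0 ∈ T
    · rw [← add_sum_erase T w' h0, hw0, hsum _ (notMem_erase _ _)]
      have h1 := hp1 T hT h0
      by_cases hee : e = e0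
      · rw [hee, hw0]
        omega
      · rw [hwne e hee]
        obtain ⟨T', hT', h0', hp0⟩ := hp2 ⟨T, hT, h0⟩
        by_cases heT' : e ∈ T'
        · have h2 : w e ≤ ∑ f ∈ T'.erase e0, w f :=
            single_le_sum (f := w) (fun _ _ => Nat.zero_le _) (mem_erase.2 ⟨hee, heT'⟩)
          have h3 : w e ≤ ∑ f ∈ T.erase e0, w f :=
            single_le_sum (f := w) (fun _ _ => Nat.zero_le _) (mem_erase.2 ⟨hee, he⟩)
          omega
        · have h2 := hw (symmDiff T T') ⟨hC T hT T' hT', by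
            rw [mem_symmDiff]; tauto⟩ e (by rw [mem_symmDiff]; tauto)
          have h3 : symmDiff T T' = symmDiff (T.erase e0) (T'.erase e0) := by
            ext x
            rw [mem_symmDiff, mem_symmDiff, mem_erase, mem_erase]
            by_cases hx : x = e0
            · subst hx; tauto
            · tauto
          rw [h3] at h2
          have h4 := sum_symmDiff_le w (T.erase e0) (T'.erase e0)
          omega
    · have hee : e ≠ e0 := by
        rintro rfl
        exact h0 he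
      rw [hwne e hee, hsum T h0]
      exact hw T ⟨hT, h0⟩ e he
  obtain ⟨J, hJ, D, hD1, hD2⟩ := h w' hadm
  refine ⟨J ⊕ Fin (k * w e0), inferInstance, Sum.elim (fun j => (D j).erase e0) (fun _ => {e0}),
    ?_, ?_⟩
  · rintro (j | j) T ⟨hT, h0⟩
    · have h1 : (D j).erase e0 ∩ T = D j ∩ T := by
        ext x
        rw [mem_inter, mem_inter, mem_erase]
        constructor
        · rintro ⟨⟨-, h2⟩, h3⟩; exact ⟨h2, h3⟩
        · rintro ⟨h2, h3⟩
          refine ⟨⟨?_, h2⟩, h3⟩
          rintro rfl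
          exact h0 h3
      show Even ((D j).erase e0 ∩ T).card
      rw [h1]
      exact hD1 j T hT
    · have h1 : ({e0} : Finset E) ∩ T = ∅ := by
        ext x
        rw [mem_inter, mem_singleton]
        constructor
        · rintro ⟨rfl, h2⟩; exact absurd h2 h0
        · intro h2; exact absurd h2 (notMem_empty _)
      show Even (({e0} : Finset E) ∩ T).card
      rw [h1, card_empty]
      exact Even.zero
  · intro e
    rw [card_filter, Fintype.sum_sum_type]
    show ∑ j : J, (if e ∈ (D j).erase e0 then 1 else 0)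
      + ∑ _j : Fin (k * w e0), (if e ∈ ({e0} : Finset E) then 1 else 0) = k * w e
    by_cases hee : e = e0
    · subst hee
      have h1 : ∑ j : J, (if e ∈ (D j).erase e then 1 else 0) = 0 := by
        apply sum_eq_zero
        intro j _
        rw [if_neg (notMem_erase _ _)]
      rw [h1, if_pos (mem_singleton_self _), sum_const, card_univ, Fintype.card_fin, smul_eq_mul,
        mul_one, zero_add]
    · have h1 : ∑ j : J, (if e ∈ (D j).erase e0 then 1 else 0) = ∑ j : J, (if e ∈ D j then 1 else 0) := by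
        refine sum_congr rfl fun j _ => ?_
        by_cases h : e ∈ D j
        · rw [if_pos h, if_pos (mem_erase.2 ⟨hee, h⟩)]
        · rw [if_neg h, if_neg (fun h' => h (mem_erase.1 h').2)]
      rw [h1, ← card_filter, hD2 e, hwne e hee]
      rw [if_neg (fun h => hee (mem_singleton.1 h)), sum_const_zero, add_zero]

/-- contraction of a set of elements -/
theorem good_contract_set (k : ℕ) (C : Set (Finset E)) (hC : ∀ A ∈ C, ∀ B ∈ C, symmDiff A B ∈ C)
    (h : GoodC k C) (S : Finset E) : GoodC k {T | T ∈ C ∧ Disjoint T S} := by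
  classical
  induction S using Finset.induction_on with
  | empty =>
    have h1 : {T | T ∈ C ∧ Disjoint T (∅ : Finset E)} = C := by
      ext T
      exact ⟨fun h => h.1, fun h => ⟨h, disjoint_empty_right _⟩⟩
    rw [h1]; exact h
  | insert e S _ ih =>
    have h1 := good_contract k {T | T ∈ C ∧ Disjoint T S} (by
      rintro A ⟨hA, hA'⟩ B ⟨hB, hB'⟩
      refine ⟨hC A hA B hB, ?_⟩
      rw [Finset.disjoint_left] at hA' hB' ⊢
      intro x hx
      rw [mem_symmDiff] at hx
      rcases hx with hx | hx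
      · exact hA' hx.1
      · exact hB' hx.1) e ih
    have h2 : {T | T ∈ C ∧ Disjoint T (insert e S)}
        = {T | T ∈ {T | T ∈ C ∧ Disjoint T S} ∧ e ∉ T} := by
      ext T
      constructor
      · rintro ⟨h3, h4⟩
        rw [disjoint_insert_right] at h4
        exact ⟨⟨h3, h4.2⟩, h4.1⟩
      · rintro ⟨⟨h3, h4⟩, h5⟩
        exact ⟨h3, disjoint_insert_right.2 ⟨h5, h4⟩⟩
    rw [h2]; exact h1

lemma exists_fiber_equiv {A B P : Type} [Fintype A] [Fintype B] [DecidableEq P] (f : A → P)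
    (g : B → P) (h : ∀ p, Fintype.card {a // f a = p} = Fintype.card {b // g b = p}) :
    ∃ σ : A ≃ B, ∀ a, g (σ a) = f a := by
  classical
  let ε : ∀ p, {a // f a = p} ≃ {b // g b = p} := fun p => Fintype.equivOfCardEq (h p)
  let σ : A ≃ B := (Equiv.sigmaFiberEquiv f).symm.trans
    ((Equiv.sigmaCongrRight ε).trans (Equiv.sigmaFiberEquiv g))
  refine ⟨σ, ?_⟩
  intro a
  exact (ε (f a) ⟨a, rfl⟩).2

/-- pattern count -/
lemma pattern_count (T0 P Q : Finset E) (h3 : T0.card ≤ 3) (hP : P ⊆ T0) (hP2 : P.card = 2)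
    (hQ : Q ⊆ T0) (hQe : Even Q.card) :
    ((Q ∩ P).card : ℤ) - ((Q ∩ (T0 \ P)).card : ℤ) = if Q = P then 2 else 0 := by
  classical
  have h4 : (T0 \ P).card ≤ 1 := by
    rw [card_sdiff_of_subset hP]
    omega
  have h5 : (Q ∩ P).card + (Q ∩ (T0 \ P)).card = Q.card := by
    rw [← card_union_of_disjoint, ← inter_union_distrib_left, union_sdiff_of_subset hP,
      inter_eq_left.2 hQ]
    rw [Finset.disjoint_left]
    intro x hx hx'
    exact (mem_sdiff.1 (mem_inter.1 hx').2).2 (mem_inter.1 hx).2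
  have h6 : (Q ∩ (T0 \ P)).card ≤ 1 := (card_le_card inter_subset_right).trans h4
  have h7 : (Q ∩ P).card ≤ 2 := (card_le_card inter_subset_right).trans hP2.le
  obtain ⟨q, hq⟩ := hQe
  by_cases hQP : Q = P
  · rw [if_pos hQP]
    subst hQP
    rw [inter_self] at h5 ⊢
    omega
  · rw [if_neg hQP]
    have h8 : (Q ∩ P).card ≠ 2 ∨ (Q ∩ (T0 \ P)).card ≠ 0 := by
      by_contra hcon
      push Not at hcon
      apply hQP
      have h9 : Q ∩ P = P := eq_of_subset_of_card_le inter_subset_right (by omega)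
      have h10 : P ⊆ Q := inter_eq_right.1 h9
      exact (eq_of_subset_of_card_le h10 (by omega)).symm
    omega

/-- the number of members with a given pattern on `T0` is determined by the weights -/
lemma fiber_count {J : Type} [Fintype J] (D : J → Finset E) (T0 P : Finset E) (h3 : T0.card ≤ 3)
    (hP : P ⊆ T0) (hP2 : P.card = 2) (hD : ∀ j, Even (D j ∩ T0).card) (c : E → ℕ)
    (hc : ∀ e, (univ.filter (fun j => e ∈ D j)).card = c e) :
    (2 * ((univ.filter (fun j => D j ∩ T0 = P)).card : ℤ))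
      = ∑ e ∈ P, (c e : ℤ) - ∑ e ∈ T0 \ P, (c e : ℤ) := by
  classical
  have h1 : ∀ R : Finset E, R ⊆ T0 → ∑ e ∈ R, (c e : ℤ) = ∑ j : J, ((D j ∩ T0 ∩ R).card : ℤ) := by
    intro R hR
    have h2 : ∀ e, (c e : ℤ) = ∑ j : J, (if e ∈ D j then 1 else 0) := by
      intro e
      rw [← hc e, card_filter]
      push_cast
      rfl
    rw [sum_congr rfl (fun e _ => h2 e), sum_comm]
    refine sum_congr rfl fun j _ => ?_
    have h3 : R.filter (fun e => e ∈ D j) = D j ∩ T0 ∩ R := by
      ext x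
      rw [mem_filter, mem_inter, mem_inter]
      constructor
      · rintro ⟨h4, h5⟩; exact ⟨⟨h5, hR h4⟩, h4⟩
      · rintro ⟨⟨h4, -⟩, h5⟩; exact ⟨h5, h4⟩
    rw [← sum_filter, sum_const, nsmul_eq_mul, mul_one, h3]
  rw [h1 P hP, h1 (T0 \ P) sdiff_subset, ← sum_sub_distrib]
  have h2 : ∀ j, ((D j ∩ T0 ∩ P).card : ℤ) - ((D j ∩ T0 ∩ (T0 \ P)).card : ℤ)
      = if D j ∩ T0 = P then 2 else 0 :=
    fun j => pattern_count T0 P (D j ∩ T0) h3 hP hP2 inter_subset_right (hD j)
  rw [sum_congr rfl (fun j _ => h2 j), ← sum_filter, sum_const, nsmul_eq_mul, mul_comm]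

lemma even_symm {D A B : Finset E} (hA : Even (D ∩ A).card) (hB : Even (D ∩ B).card) :
    Even (D ∩ symmDiff A B).card := by
  classical
  have h1 : (D ∩ symmDiff A B).card + 2 * (D ∩ A ∩ B).card = (D ∩ A).card + (D ∩ B).card := by
    have h2 : (D ∩ A).card = (D ∩ (A \ B)).card + (D ∩ A ∩ B).card := by
      rw [← card_union_of_disjoint]
      · congr 1
        ext x
        simp only [mem_inter, mem_union, mem_sdiff]
        tauto
      · rw [Finset.disjoint_left]
        intro x hx hx'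
        simp only [mem_inter, mem_sdiff] at hx hx'
        tauto
    have h3 : (D ∩ B).card = (D ∩ (B \ A)).card + (D ∩ A ∩ B).card := by
      rw [← card_union_of_disjoint]
      · congr 1
        ext x
        simp only [mem_inter, mem_union, mem_sdiff]
        tauto
      · rw [Finset.disjoint_left]
        intro x hx hx'
        simp only [mem_inter, mem_sdiff] at hx hx'
        tauto
    have h4 : (D ∩ symmDiff A B).card = (D ∩ (A \ B)).card + (D ∩ (B \ A)).card := by
      rw [← card_union_of_disjoint]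
      · congr 1
        ext x
        simp only [mem_inter, mem_union, mem_sdiff, mem_symmDiff]
        tauto
      · rw [Finset.disjoint_left]
        intro x hx hx'
        simp only [mem_inter, mem_sdiff] at hx hx'
        tauto
    omega
  obtain ⟨x, hx⟩ := hA
  obtain ⟨y, hy⟩ := hB
  exact ⟨x + y - (D ∩ A ∩ B).card, by omega⟩

/-- **Sums along cuts with at most three edges.** -/
theorem good_sum3 (k : ℕ) (C1 C2 : Set (Finset E)) (T0 : Finset E) (h3 : T0.card ≤ 3)
    (p : E → Prop) [DecidablePred p] (hT1 : T0 ∈ C1) (hT2 : T0 ∈ C2) (he1 : ∅ ∈ C1) (he2 : ∅ ∈ C2)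
    (hs1 : ∀ T ∈ C1, ∀ e ∈ T, e ∈ T0 ∨ p e) (hs2 : ∀ T ∈ C2, ∀ e ∈ T, e ∈ T0 ∨ ¬ p e)
    (h1 : GoodC k C1) (h2 : GoodC k C2) :
    GoodC k {T | ∃ T1 ∈ C1, ∃ T2 ∈ C2, T = symmDiff T1 T2} := by
  classical
  intro w hw
  obtain ⟨J1, hJ1, D1, hE1, hc1⟩ := h1 w (by
    intro T hT
    exact hw T ⟨T, hT, ∅, he2, by ext x; simp [mem_symmDiff]⟩)
  obtain ⟨J2, hJ2, D2, hE2, hc2⟩ := h2 w (by
    intro T hT
    exact hw T ⟨∅, he1, T, hT, by ext x; simp [mem_symmDiff]⟩)
  -- bijection between the members with nonempty pattern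
  obtain ⟨σ, hσ⟩ := exists_fiber_equiv
    (fun j : {j : J1 // D1 j ∩ T0 ≠ ∅} => D1 j.1 ∩ T0)
    (fun j : {j : J2 // D2 j ∩ T0 ≠ ∅} => D2 j.1 ∩ T0) (by
    intro P
    have hcard : ∀ {J : Type} [Fintype J] (D : J → Finset E),
        Fintype.card {j : {j : J // D j ∩ T0 ≠ ∅} // D j.1 ∩ T0 = P}
          = if P = ∅ then 0 else (univ.filter (fun j => D j ∩ T0 = P)).card := by
      intro J _ D
      by_cases hP : P = ∅
      · rw [if_pos hP, Fintype.card_eq_zero_iff]
        exact ⟨fun j => j.1.2 (j.2.trans hP)⟩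
      · rw [if_neg hP, ← Fintype.card_subtype]
        refine Fintype.card_congr ⟨fun j => ⟨j.1.1, j.2⟩, fun j => ⟨⟨j.1, ?_⟩, j.2⟩, ?_, ?_⟩
        · rw [j.2]; exact hP
        · rintro ⟨⟨j, hj⟩, hj'⟩; rfl
        · rintro ⟨j, hj⟩; rfl
    rw [hcard D1, hcard D2]
    by_cases hP : P = ∅
    · rw [if_pos hP, if_pos hP]
    rw [if_neg hP, if_neg hP]
    by_cases hP2 : P ⊆ T0 ∧ P.card = 2
    · have h4 := fiber_count D1 T0 P h3 hP2.1 hP2.2 (fun j => hE1 j T0 hT1) (fun e => k * w e) hc1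
      have h5 := fiber_count D2 T0 P h3 hP2.1 hP2.2 (fun j => hE2 j T0 hT2) (fun e => k * w e) hc2
      omega
    · have h6 : ∀ {J : Type} [Fintype J] (D : J → Finset E), (∀ j, Even (D j ∩ T0).card) →
          (univ.filter (fun j => D j ∩ T0 = P)).card = 0 := by
        intro J _ D hD
        rw [card_eq_zero, filter_eq_empty_iff]
        intro j _ hj
        apply hP2
        have h7 : P ⊆ T0 := by rw [← hj]; exact inter_subset_right
        refine ⟨h7, ?_⟩
        have h8 := hD j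
        rw [hj] at h8
        have h9 := (card_le_card h7).trans h3
        have h10 : P.card ≠ 0 := fun h => hP (card_eq_zero.1 h)
        obtain ⟨x, hx⟩ := h8
        omega
      rw [h6 D1 (fun j => hE1 j T0 hT1), h6 D2 (fun j => hE2 j T0 hT2)])
  have hσ' : ∀ j : {j : J1 // D1 j ∩ T0 ≠ ∅}, D2 (σ j).1 ∩ T0 = D1 j.1 ∩ T0 := hσ
  -- the second side
  let R : Finset E := univ.filter (fun e => e ∉ T0 ∧ ¬ p e)
  have hR : ∀ e, e ∈ R ↔ e ∉ T0 ∧ ¬ p e := fun e => by simp [R]
  let D' : {j : J1 // D1 j ∩ T0 ≠ ∅} ⊕ ({j : J1 // D1 j ∩ T0 = ∅} ⊕ {j : J2 // D2 j ∩ T0 = ∅}) →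
      Finset E := Sum.elim (fun j => (D1 j.1 \ R) ∪ (D2 (σ j).1 ∩ R))
        (Sum.elim (fun j => D1 j.1 \ R) (fun j => D2 j.1 ∩ R))
  refine ⟨_, inferInstance, D', ?_, ?_⟩
  · intro j T hT
    obtain ⟨T1, hT1', T2, hT2', rfl⟩ := hT
    have hd1 : ∀ e ∈ T1, e ∉ R := by
      intro e he
      rw [hR]
      rcases hs1 T1 hT1' e he with h | h
      · exact fun h' => h'.1 h
      · exact fun h' => h'.2 h
    have hd2 : ∀ e ∈ T2, e ∈ T0 ∨ e ∈ R := by
      intro e he
      rw [hR]
      by_cases h : e ∈ T0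
      · exact Or.inl h
      · rcases hs2 T2 hT2' e he with h' | h'
        · exact absurd h' h
        · exact Or.inr ⟨h, h'⟩
    have hTR : ∀ e ∈ T0, e ∉ R := fun e he h => ((hR e).1 h).1 he
    rcases j with j | j | j
    · apply even_symm
      · have h4 : D' (Sum.inl j) ∩ T1 = D1 j.1 ∩ T1 := by
          ext e
          show e ∈ ((D1 j.1 \ R) ∪ (D2 (σ j).1 ∩ R)) ∩ T1 ↔ e ∈ D1 j.1 ∩ T1
          simp only [mem_inter, mem_union, mem_sdiff]
          constructor
          · rintro ⟨h5 | h5, h6⟩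
            · exact ⟨h5.1, h6⟩
            · exact absurd h5.2 (hd1 e h6)
          · rintro ⟨h5, h6⟩
            exact ⟨Or.inl ⟨h5, hd1 e h6⟩, h6⟩
        rw [h4]
        exact hE1 _ _ hT1'
      · have h4 : D' (Sum.inl j) ∩ T2 = D2 (σ j).1 ∩ T2 := by
          ext e
          have h7 : e ∈ D2 (σ j).1 ∩ T0 ↔ e ∈ D1 j.1 ∩ T0 := by rw [hσ' j]
          rw [mem_inter, mem_inter] at h7
          show e ∈ ((D1 j.1 \ R) ∪ (D2 (σ j).1 ∩ R)) ∩ T2 ↔ e ∈ D2 (σ j).1 ∩ T2
          simp only [mem_inter, mem_union, mem_sdiff]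
          constructor
          · rintro ⟨h5 | h5, h6⟩
            · rcases hd2 e h6 with h8 | h8
              · exact ⟨(h7.2 ⟨h5.1, h8⟩).1, h6⟩
              · exact absurd h8 h5.2
            · exact ⟨h5.1, h6⟩
          · rintro ⟨h5, h6⟩
            rcases hd2 e h6 with h8 | h8
            · exact ⟨Or.inl ⟨(h7.1 ⟨h5, h8⟩).1, hTR e h8⟩, h6⟩
            · exact ⟨Or.inr ⟨h5, h8⟩, h6⟩
        rw [h4]
        exact hE2 _ _ hT2'
    · apply even_symm
      · have h4 : D' (Sum.inr (Sum.inl j)) ∩ T1 = D1 j.1 ∩ T1 := by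
          ext e
          show e ∈ (D1 j.1 \ R) ∩ T1 ↔ e ∈ D1 j.1 ∩ T1
          simp only [mem_inter, mem_sdiff]
          exact ⟨fun h => ⟨h.1.1, h.2⟩, fun h => ⟨⟨h.1, hd1 e h.2⟩, h.2⟩⟩
        rw [h4]
        exact hE1 _ _ hT1'
      · have h4 : D' (Sum.inr (Sum.inl j)) ∩ T2 = ∅ := by
          ext e
          show e ∈ (D1 j.1 \ R) ∩ T2 ↔ e ∈ (∅ : Finset E)
          simp only [mem_inter, mem_sdiff, notMem_empty, iff_false]
          rintro ⟨⟨h5, h6⟩, h7⟩
          rcases hd2 e h7 with h8 | h8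
          · have h9 : e ∈ D1 j.1 ∩ T0 := mem_inter.2 ⟨h5, h8⟩
            rw [j.2] at h9
            exact notMem_empty _ h9
          · exact h6 h8
        rw [h4, card_empty]
        exact Even.zero
    · apply even_symm
      · have h4 : D' (Sum.inr (Sum.inr j)) ∩ T1 = ∅ := by
          ext e
          show e ∈ (D2 j.1 ∩ R) ∩ T1 ↔ e ∈ (∅ : Finset E)
          simp only [mem_inter, notMem_empty, iff_false]
          rintro ⟨⟨h5, h6⟩, h7⟩
          exact hd1 e h7 h6
        rw [h4, card_empty]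
        exact Even.zero
      · have h4 : D' (Sum.inr (Sum.inr j)) ∩ T2 = D2 j.1 ∩ T2 := by
          ext e
          show e ∈ (D2 j.1 ∩ R) ∩ T2 ↔ e ∈ D2 j.1 ∩ T2
          simp only [mem_inter]
          constructor
          · rintro ⟨⟨h5, h6⟩, h7⟩; exact ⟨h5, h7⟩
          · rintro ⟨h5, h7⟩
            refine ⟨⟨h5, ?_⟩, h7⟩
            rcases hd2 e h7 with h8 | h8
            · have h9 : e ∈ D2 j.1 ∩ T0 := mem_inter.2 ⟨h5, h8⟩
              rw [j.2] at h9
              exact absurd h9 (notMem_empty _)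
            · exact h8
        rw [h4]
        exact hE2 _ _ hT2'
  · intro e
    rw [card_filter, Fintype.sum_sum_type, Fintype.sum_sum_type]
    show ∑ j : {j : J1 // D1 j ∩ T0 ≠ ∅}, (if e ∈ (D1 j.1 \ R) ∪ (D2 (σ j).1 ∩ R) then 1 else 0)
      + (∑ j : {j : J1 // D1 j ∩ T0 = ∅}, (if e ∈ D1 j.1 \ R then 1 else 0)
        + ∑ j : {j : J2 // D2 j ∩ T0 = ∅}, (if e ∈ D2 j.1 ∩ R then 1 else 0)) = k * w e
    have hsplit : ∀ {J : Type} [Fintype J] (D : J → Finset E),
        ∑ j : {j : J // D j ∩ T0 ≠ ∅}, (if e ∈ D j.1 then 1 else 0)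
          + ∑ j : {j : J // D j ∩ T0 = ∅}, (if e ∈ D j.1 then 1 else 0)
          = (univ.filter (fun j => e ∈ D j)).card := by
      intro J _ D
      rw [card_filter, add_comm]
      exact (Fintype.sum_subtype_add_sum_subtype (fun j => D j ∩ T0 = ∅)
        (fun j => if e ∈ D j then 1 else 0))
    by_cases heR : e ∈ R
    · have h4 : ∑ j : {j : J1 // D1 j ∩ T0 ≠ ∅}, (if e ∈ (D1 j.1 \ R) ∪ (D2 (σ j).1 ∩ R) then 1 else 0)
          = ∑ j : {j : J2 // D2 j ∩ T0 ≠ ∅}, (if e ∈ D2 j.1 then 1 else 0) := by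
        rw [← σ.sum_comp (fun j => if e ∈ D2 j.1 then 1 else 0)]
        refine sum_congr rfl fun j _ => ?_
        by_cases h : e ∈ D2 (σ j).1
        · rw [if_pos h, if_pos (mem_union_right _ (mem_inter.2 ⟨h, heR⟩))]
        · rw [if_neg h, if_neg]
          intro h'
          rcases mem_union.1 h' with h' | h'
          · exact (mem_sdiff.1 h').2 heR
          · exact h (mem_inter.1 h').1
      have h5 : ∑ j : {j : J1 // D1 j ∩ T0 = ∅}, (if e ∈ D1 j.1 \ R then 1 else 0) = 0 := by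
        apply sum_eq_zero
        intro j _
        rw [if_neg]
        exact fun h => (mem_sdiff.1 h).2 heR
      have h6 : ∑ j : {j : J2 // D2 j ∩ T0 = ∅}, (if e ∈ D2 j.1 ∩ R then 1 else 0)
          = ∑ j : {j : J2 // D2 j ∩ T0 = ∅}, (if e ∈ D2 j.1 then 1 else 0) := by
        refine sum_congr rfl fun j _ => ?_
        by_cases h : e ∈ D2 j.1
        · rw [if_pos h, if_pos (mem_inter.2 ⟨h, heR⟩)]
        · rw [if_neg h, if_neg (fun h' => h (mem_inter.1 h').1)]
      rw [h4, h5, h6, zero_add, hsplit D2, hc2 e]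
    · have h4 : ∑ j : {j : J1 // D1 j ∩ T0 ≠ ∅}, (if e ∈ (D1 j.1 \ R) ∪ (D2 (σ j).1 ∩ R) then 1 else 0)
          = ∑ j : {j : J1 // D1 j ∩ T0 ≠ ∅}, (if e ∈ D1 j.1 then 1 else 0) := by
        refine sum_congr rfl fun j _ => ?_
        by_cases h : e ∈ D1 j.1
        · rw [if_pos h, if_pos (mem_union_left _ (mem_sdiff.2 ⟨h, heR⟩))]
        · rw [if_neg h, if_neg]
          intro h'
          rcases mem_union.1 h' with h' | h'
          · exact h (mem_sdiff.1 h').1
          · exact heR (mem_inter.1 h').2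
      have h5 : ∑ j : {j : J1 // D1 j ∩ T0 = ∅}, (if e ∈ D1 j.1 \ R then 1 else 0)
          = ∑ j : {j : J1 // D1 j ∩ T0 = ∅}, (if e ∈ D1 j.1 then 1 else 0) := by
        refine sum_congr rfl fun j _ => ?_
        by_cases h : e ∈ D1 j.1
        · rw [if_pos h, if_pos (mem_sdiff.2 ⟨h, heR⟩)]
        · rw [if_neg h, if_neg (fun h' => h (mem_sdiff.1 h').1)]
      have h6 : ∑ j : {j : J2 // D2 j ∩ T0 = ∅}, (if e ∈ D2 j.1 ∩ R then 1 else 0) = 0 := by
        apply sum_eq_zero
        intro j _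
        rw [if_neg]
        exact fun h => heR (mem_inter.1 h).2
      rw [h4, h5, h6, add_zero, hsplit D1, hc1 e]

end

end Pool.Agent.H47.CL
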