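import Pool.Agent.H47.CL.Cuts
import Pool.Agent.H47.NC.Rank

set_option autoImplicit false
set_option linter.unusedSectionVars false

/-!
# Gluing multigraphs along at most three vertices
-/

namespace Pool.Agent.H47.CL

open Finset Pool.Agent.H47.FC

section

variable {V E : Type} [DecidableEq V] [Fintype V] [DecidableEq E] [Fintype E] (a b : E → V)

/-- the cuts of a multigraph -/
def cuts : Set (Finset E) := {T | ∃ X : Finset V, T = univ.filter (fun e => Crs a b X e)}

lemma mem_cuts (X : Finset V) : univ.filter (fun e => Crs a b X e) ∈ cuts a b := ⟨X, rfl⟩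

lemma cuts_symmDiff : ∀ A ∈ cuts a b, ∀ B ∈ cuts a b, symmDiff A B ∈ cuts a b := by
  rintro A ⟨X, rfl⟩ B ⟨Y, rfl⟩
  refine ⟨symmDiff X Y, ?_⟩
  ext e
  rw [mem_symmDiff, mem_filter, mem_filter, mem_filter, NC.crs_symmDiff]
  simp only [mem_univ, true_and]
  tauto

lemma empty_mem_cuts : ∅ ∈ cuts a b := by
  refine ⟨∅, ?_⟩
  symm
  rw [filter_eq_empty_iff]
  intro e _ h
  exact h (by simp)

lemma evenM_of_cuts {D : Finset E} (h : ∀ X : Finset V, Even (D.filter (fun e => Crs a b X e)).card) :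
    EvenM a b D := by
  unfold EvenM
  funext v
  have h1 := h {v}
  have h2 : (((D.filter (fun e => Crs a b {v} e)).card : ℕ) : ZMod 2) = 0 := by
    rw [ZMod.natCast_eq_zero_iff]
    exact h1.two_dvd
  rw [natCast_card_filter] at h2
  unfold bd
  rw [Finset.sum_apply]
  refine Eq.trans (sum_congr rfl fun e _ => ?_) h2
  have h3 : (dl (a e) + dl (b e)) v = (if v = a e then (1 : ZMod 2) else 0) + (if v = b e then 1 else 0) := rfl
  rw [h3]
  unfold Crs
  simp only [mem_singleton]
  by_cases h4 : v = a e <;> by_cases h5 : v = b e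
  · rw [if_pos h4, if_pos h5, if_neg]
    · decide
    · rw [not_not, ← h4, ← h5]
  · rw [if_pos h4, if_neg h5, if_pos]
    · decide
    · rw [← h4]
      exact fun h => h5 (h.1 rfl).symm
  · rw [if_neg h4, if_pos h5, if_pos]
    · decide
    · rw [← h5]
      exact fun h => h4 (h.2 rfl).symm
  · rw [if_neg h4, if_neg h5, if_neg]
    · decide
    · rw [not_not]
      exact ⟨fun h => absurd h.symm h4, fun h => absurd h.symm h5⟩

lemma goodC_of_good {k : ℕ} (h : Good k a b) : GoodC k (cuts a b) := by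
  intro w hw
  obtain ⟨J, hJ, D, hD1, hD2⟩ := h w (by
    intro X e he
    exact hw _ (mem_cuts a b X) e (mem_filter.2 ⟨mem_univ _, he⟩))
  refine ⟨J, hJ, D, ?_, hD2⟩
  rintro j T ⟨X, rfl⟩
  have h1 := NC.even_crs a b (hD1 j) X
  have h2 : D j ∩ univ.filter (fun e => Crs a b X e) = (D j).filter (fun e => Crs a b X e) := by
    ext e
    rw [mem_inter, mem_filter, mem_filter]
    simp
  rw [h2]
  exact h1

/-- **Gluing along at most three vertices.** -/
theorem good_glue {W' : Type} [DecidableEq W'] [Fintype W'] (k : ℕ) (p : E → Prop)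
    [DecidablePred p] (Z : Finset V) (hZ : Z.card ≤ 3)
    (hused : ∀ e f, p e → ¬ p f → ∀ v, (v = a e ∨ v = b e) → (v = a f ∨ v = b f) → v ∈ Z)
    (g : V → W') (hg : Function.Injective g) (x : W') (hx : ∀ v, g v ≠ x)
    (h1 : Good k (Sum.elim (fun e => if p e then g (a e) else x) (fun z : Z => g z.1) : E ⊕ Z → W')
      (Sum.elim (fun e => if p e then g (b e) else x) (fun _ => x)))
    (h2 : Good k (Sum.elim (fun e => if p e then x else g (a e)) (fun z : Z => g z.1) : E ⊕ Z → W')
      (Sum.elim (fun e => if p e then x else g (b e)) (fun _ => x))) :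
    Good k a b := by
  classical
  set a1 : E ⊕ Z → W' := Sum.elim (fun e => if p e then g (a e) else x) (fun z : Z => g z.1) with ha1
  set b1 : E ⊕ Z → W' := Sum.elim (fun e => if p e then g (b e) else x) (fun _ => x) with hb1
  set a2 : E ⊕ Z → W' := Sum.elim (fun e => if p e then x else g (a e)) (fun z : Z => g z.1) with ha2
  set b2 : E ⊕ Z → W' := Sum.elim (fun e => if p e then x else g (b e)) (fun _ => x) with hb2
  have c1p : ∀ (X : Finset W') e, p e → (Crs a1 b1 X (Sum.inl e) ↔ ¬ (g (a e) ∈ X ↔ g (b e) ∈ X)) := by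
    intro X e he
    unfold Crs
    rw [ha1, hb1]
    simp only [Sum.elim_inl, if_pos he]
  have c1n : ∀ (X : Finset W') e, ¬ p e → ¬ Crs a1 b1 X (Sum.inl e) := by
    intro X e he
    unfold Crs
    rw [ha1, hb1]
    simp only [Sum.elim_inl, if_neg he, not_not]
  have c2n : ∀ (X : Finset W') e, ¬ p e → (Crs a2 b2 X (Sum.inl e) ↔ ¬ (g (a e) ∈ X ↔ g (b e) ∈ X)) := by
    intro X e he
    unfold Crs
    rw [ha2, hb2]
    simp only [Sum.elim_inl, if_neg he]
  have c2p : ∀ (X : Finset W') e, p e → ¬ Crs a2 b2 X (Sum.inl e) := by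
    intro X e he
    unfold Crs
    rw [ha2, hb2]
    simp only [Sum.elim_inl, if_pos he, not_not]
  have c1z : ∀ (X : Finset W') (z : Z), (Crs a1 b1 X (Sum.inr z) ↔ ¬ (g z.1 ∈ X ↔ x ∈ X)) := by
    intro X z
    unfold Crs
    rw [ha1, hb1]
    simp only [Sum.elim_inr]
  have c2z : ∀ (X : Finset W') (z : Z), (Crs a2 b2 X (Sum.inr z) ↔ ¬ (g z.1 ∈ X ↔ x ∈ X)) := by
    intro X z
    unfold Crs
    rw [ha2, hb2]
    simp only [Sum.elim_inr]
  let T0 : Finset (E ⊕ Z) := univ.image (fun z : Z => (Sum.inr z : E ⊕ Z))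
  have hT0 : ∀ t, t ∈ T0 ↔ ∃ z : Z, t = Sum.inr z := by
    intro t
    rw [mem_image]
    constructor
    · rintro ⟨z, -, rfl⟩; exact ⟨z, rfl⟩
    · rintro ⟨z, rfl⟩; exact ⟨z, mem_univ _, rfl⟩
  have hT0c : T0.card ≤ 3 := by
    refine card_image_le.trans ?_
    rw [card_univ, Fintype.card_coe]
    exact hZ
  have hT1 : T0 ∈ cuts a1 b1 := by
    refine ⟨{x}, ?_⟩
    ext t
    rw [hT0, mem_filter]
    constructor
    · rintro ⟨z, rfl⟩
      refine ⟨mem_univ _, (c1z _ z).2 ?_⟩
      rw [mem_singleton, mem_singleton]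
      exact fun h => hx _ (h.2 rfl)
    · rintro ⟨-, h⟩
      rcases t with e | z
      · exfalso
        by_cases he : p e
        · rw [c1p _ e he, mem_singleton, mem_singleton] at h
          exact h ⟨fun h' => absurd h' (hx _), fun h' => absurd h' (hx _)⟩
        · exact c1n _ e he h
      · exact ⟨z, rfl⟩
  have hT2 : T0 ∈ cuts a2 b2 := by
    refine ⟨{x}, ?_⟩
    ext t
    rw [hT0, mem_filter]
    constructor
    · rintro ⟨z, rfl⟩
      refine ⟨mem_univ _, (c2z _ z).2 ?_⟩
      rw [mem_singleton, mem_singleton]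
      exact fun h => hx _ (h.2 rfl)
    · rintro ⟨-, h⟩
      rcases t with e | z
      · exfalso
        by_cases he : p e
        · exact c2p _ e he h
        · rw [c2n _ e he, mem_singleton, mem_singleton] at h
          exact h ⟨fun h' => absurd h' (hx _), fun h' => absurd h' (hx _)⟩
      · exact ⟨z, rfl⟩
  -- the side of an element
  let q : E ⊕ Z → Prop := Sum.elim p (fun _ => True)
  have hsum := good_sum3 k (cuts a1 b1) (cuts a2 b2) T0 hT0c q hT1 hT2 (empty_mem_cuts _ _)
    (empty_mem_cuts _ _)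
    (by
      rintro T ⟨X, rfl⟩ t ht
      have ht' := (mem_filter.1 ht).2
      rcases t with e | z
      · right
        by_contra he
        exact c1n X e he ht'
      · left; exact (hT0 _).2 ⟨z, rfl⟩)
    (by
      rintro T ⟨X, rfl⟩ t ht
      have ht' := (mem_filter.1 ht).2
      rcases t with e | z
      · right
        intro he
        exact c2p X e he ht'
      · left; exact (hT0 _).2 ⟨z, rfl⟩)
    (goodC_of_good a1 b1 h1) (goodC_of_good a2 b2 h2)
  have hclosed : ∀ A ∈ {T | ∃ T1 ∈ cuts a1 b1, ∃ T2 ∈ cuts a2 b2, T = symmDiff T1 T2},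
      ∀ B ∈ {T | ∃ T1 ∈ cuts a1 b1, ∃ T2 ∈ cuts a2 b2, T = symmDiff T1 T2},
      symmDiff A B ∈ {T | ∃ T1 ∈ cuts a1 b1, ∃ T2 ∈ cuts a2 b2, T = symmDiff T1 T2} := by
    rintro A ⟨A1, hA1, A2, hA2, rfl⟩ B ⟨B1, hB1, B2, hB2, rfl⟩
    refine ⟨symmDiff A1 B1, cuts_symmDiff _ _ _ hA1 _ hB1, symmDiff A2 B2,
      cuts_symmDiff _ _ _ hA2 _ hB2, ?_⟩
    rw [symmDiff_assoc, symmDiff_assoc, ← symmDiff_assoc A2, symmDiff_comm A2 B1, symmDiff_assoc]
  have hcon := good_contract_set k _ hclosed hsum T0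
  intro w hw
  obtain ⟨J, hJ, D, hD1, hD2⟩ := hcon (Sum.elim w (fun _ => 0)) (by
    rintro T ⟨⟨T1, ⟨X1, rfl⟩, T2, ⟨X2, rfl⟩, rfl⟩, hdis⟩ t ht
    -- normalize
    let Y1 : W' → Prop := fun u => ¬ (u ∈ X1 ↔ x ∈ X1)
    let Y2 : W' → Prop := fun u => ¬ (u ∈ X2 ↔ x ∈ X2)
    have hYZ : ∀ z : Z, (Y1 (g z.1) ↔ Y2 (g z.1)) := by
      intro z
      have h3 : (Sum.inr z : E ⊕ Z) ∉ symmDiff (univ.filter (fun e => Crs a1 b1 X1 e))
          (univ.filter (fun e => Crs a2 b2 X2 e)) := by
        intro h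
        exact (Finset.disjoint_left.1 hdis h) ((hT0 _).2 ⟨z, rfl⟩)
      rw [mem_symmDiff, mem_filter, mem_filter, c1z, c2z] at h3
      simp only [mem_univ, true_and] at h3
      show ¬ (g z.1 ∈ X1 ↔ x ∈ X1) ↔ ¬ (g z.1 ∈ X2 ↔ x ∈ X2)
      tauto
    let X : Finset V := univ.filter (fun v => (∃ e, p e ∧ (v = a e ∨ v = b e) ∧ Y1 (g v)) ∨
      (∃ e, ¬ p e ∧ (v = a e ∨ v = b e) ∧ Y2 (g v)))
    have hX1 : ∀ e, p e → ∀ v, (v = a e ∨ v = b e) → (v ∈ X ↔ Y1 (g v)) := by
      intro e he v hv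
      rw [mem_filter]
      constructor
      · rintro ⟨-, h | h⟩
        · obtain ⟨_, _, _, h⟩ := h; exact h
        · obtain ⟨f, hf, hvf, h⟩ := h
          have h4 := hused e f he hf v hv hvf
          exact (hYZ ⟨v, h4⟩).2 h
      · intro h
        exact ⟨mem_univ _, Or.inl ⟨e, he, hv, h⟩⟩
    have hX2 : ∀ e, ¬ p e → ∀ v, (v = a e ∨ v = b e) → (v ∈ X ↔ Y2 (g v)) := by
      intro e he v hv
      rw [mem_filter]
      constructor
      · rintro ⟨-, h | h⟩
        · obtain ⟨f, hf, hvf, h⟩ := h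
          have h4 := hused f e hf he v hvf hv
          exact (hYZ ⟨v, h4⟩).1 h
        · obtain ⟨_, _, _, h⟩ := h; exact h
      · intro h
        exact ⟨mem_univ _, Or.inr ⟨e, he, hv, h⟩⟩
    have hTX : ∀ e : E, (Sum.inl e : E ⊕ Z) ∈ symmDiff (univ.filter (fun e => Crs a1 b1 X1 e))
          (univ.filter (fun e => Crs a2 b2 X2 e)) ↔ Crs a b X e := by
      intro e
      rw [mem_symmDiff, mem_filter, mem_filter]
      simp only [mem_univ, true_and]
      unfold Crs at *
      by_cases he : p e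
      · have h3 := c2p X2 e he
        rw [c1p X1 e he]
        rw [hX1 e he (a e) (Or.inl rfl), hX1 e he (b e) (Or.inr rfl)]
        show _ ↔ ¬ (¬ (g (a e) ∈ X1 ↔ x ∈ X1) ↔ ¬ (g (b e) ∈ X1 ↔ x ∈ X1))
        tauto
      · have h3 := c1n X1 e he
        rw [c2n X2 e he]
        rw [hX2 e he (a e) (Or.inl rfl), hX2 e he (b e) (Or.inr rfl)]
        show _ ↔ ¬ (¬ (g (a e) ∈ X2 ↔ x ∈ X2) ↔ ¬ (g (b e) ∈ X2 ↔ x ∈ X2))
        tauto
    have hTeq : symmDiff (univ.filter (fun e => Crs a1 b1 X1 e))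
          (univ.filter (fun e => Crs a2 b2 X2 e))
        = (univ.filter (fun e => Crs a b X e)).image (fun e => (Sum.inl e : E ⊕ Z)) := by
      ext s
      rcases s with e | z
      · rw [hTX e, mem_image]
        constructor
        · intro h; exact ⟨e, mem_filter.2 ⟨mem_univ _, h⟩, rfl⟩
        · rintro ⟨f, hf, hfe⟩
          have : f = e := Sum.inl_injective hfe
          rw [← this]
          exact (mem_filter.1 hf).2
      · constructor
        · intro h
          exact absurd ((hT0 _).2 ⟨z, rfl⟩) (Finset.disjoint_left.1 hdis h)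
        · intro h
          rw [mem_image] at h
          obtain ⟨f, -, hf⟩ := h
          exact absurd hf (by simp)
    rw [hTeq] at ht ⊢
    rw [mem_image] at ht
    obtain ⟨e, he, rfl⟩ := ht
    rw [sum_image (fun _ _ _ _ h => Sum.inl_injective h)]
    exact hw X e (mem_filter.1 he).2)
  refine ⟨J, hJ, fun j => univ.filter (fun e => (Sum.inl e : E ⊕ Z) ∈ D j), ?_, ?_⟩
  · intro j
    apply evenM_of_cuts
    intro X
    let X' : Finset W' := X.image g
    have hX' : ∀ v, g v ∈ X' ↔ v ∈ X := by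
      intro v
      rw [mem_image]
      constructor
      · rintro ⟨u, hu, huv⟩
        rw [← hg huv]; exact hu
      · intro h; exact ⟨v, h, rfl⟩
    have hxX : x ∉ X' := by
      intro h
      rw [mem_image] at h
      obtain ⟨u, -, hu⟩ := h
      exact hx u hu
    have hsd : ∀ t : E ⊕ Z, t ∈ symmDiff (univ.filter (fun e => Crs a1 b1 X' e))
          (univ.filter (fun e => Crs a2 b2 X' e)) ↔ ∃ e, t = Sum.inl e ∧ Crs a b X e := by
      intro t
      rw [mem_symmDiff, mem_filter, mem_filter]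
      simp only [mem_univ, true_and]
      rcases t with e | z
      · have h4 : Crs a b X e ↔ ¬ (g (a e) ∈ X' ↔ g (b e) ∈ X') := by
          rw [hX', hX']
          rfl
        have h5 : (∃ f, (Sum.inl e : E ⊕ Z) = Sum.inl f ∧ Crs a b X f) ↔ Crs a b X e := by
          constructor
          · rintro ⟨f, hf, hf'⟩
            have : e = f := Sum.inl_injective hf
            rw [this]; exact hf'
          · intro h; exact ⟨e, rfl, h⟩
        rw [h5, h4]
        by_cases he : p e
        · have h3 := c2p X' e he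
          rw [c1p X' e he]
          tauto
        · have h3 := c1n X' e he
          rw [c2n X' e he]
          tauto
      · rw [c1z, c2z]
        constructor
        · intro h; exfalso; tauto
        · rintro ⟨f, hf, -⟩
          exact absurd hf (by simp)
    have h3 := hD1 j (symmDiff (univ.filter (fun e => Crs a1 b1 X' e))
          (univ.filter (fun e => Crs a2 b2 X' e))) ⟨⟨_, mem_cuts _ _ _, _, mem_cuts _ _ _, rfl⟩, by
        rw [Finset.disjoint_left]
        intro t ht ht'
        obtain ⟨e, rfl, -⟩ := (hsd t).1 ht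
        obtain ⟨z, hz⟩ := (hT0 _).1 ht'
        exact absurd hz (by simp)⟩
    have h4 : (D j ∩ symmDiff (univ.filter (fun e => Crs a1 b1 X' e))
          (univ.filter (fun e => Crs a2 b2 X' e))).card
        = ((univ.filter (fun e => (Sum.inl e : E ⊕ Z) ∈ D j)).filter (fun e => Crs a b X e)).card := by
      symm
      apply card_bij (fun e _ => (Sum.inl e : E ⊕ Z))
      · intro e he
        rw [mem_filter, mem_filter] at he
        rw [mem_inter]
        exact ⟨he.1.2, (hsd _).2 ⟨e, rfl, he.2⟩⟩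
      · intro e _ f _ h
        exact Sum.inl_injective h
      · intro t ht
        rw [mem_inter] at ht
        obtain ⟨e, rfl, he⟩ := (hsd t).1 ht.2
        exact ⟨e, mem_filter.2 ⟨mem_filter.2 ⟨mem_univ _, ht.1⟩, he⟩, rfl⟩
    rw [← h4]
    exact h3
  · intro e
    have h3 : (univ.filter (fun j => e ∈ univ.filter (fun e => (Sum.inl e : E ⊕ Z) ∈ D j)))
        = univ.filter (fun j => (Sum.inl e : E ⊕ Z) ∈ D j) := by
      ext j
      rw [mem_filter, mem_filter, mem_filter]
      simp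
    show (univ.filter (fun j => e ∈ univ.filter (fun e => (Sum.inl e : E ⊕ Z) ∈ D j))).card = k * w e
    rw [h3]
    exact hD2 (Sum.inl e)

end

end Pool.Agent.H47.CL
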